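import Pool.Agent.Y160.SL.Cls

/-!
# Examples of curves of the class
-/

set_option autoImplicit false
set_option linter.all false

open Polynomial

namespace Pool.Agent.Y160.T7

open Pool.Agent.Y160.SL (atZero powT IsTowerCurve)

variable {k : Type} [Field k]

/-- `e x + P(c t ^ n + Q(x))`. -/
noncomputable def exF (P Q : k[X]) (e c : k) (n : ℕ) : k[X][X] :=
  C (C e) * X + aeval (C (C c * X ^ n) + aeval (X : k[X][X]) Q) P

theorem powT_exF (p : ℕ) (P Q : k[X]) (e c : k) (n : ℕ) :
    powT p (exF P Q e c n) = exF P Q e c (n * p) := by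
  have key : powT p (exF P Q e c n) = mapAlgHom (expand k p) (exF P Q e c n) := rfl
  have h1 : mapAlgHom (expand k p) (X : k[X][X]) = X := by
    rw [coe_mapAlgHom, map_X]
  have h2 : mapAlgHom (expand k p) (C (C c * X ^ n) : k[X][X]) = C (C c * X ^ (n * p)) := by
    rw [coe_mapAlgHom, map_C]
    congr 1
    show expand k p (C c * X ^ n) = _
    rw [map_mul, map_pow, expand_C, expand_X, ← pow_mul, mul_comm n p]
  have h3 : mapAlgHom (expand k p) (C (C e) : k[X][X]) = C (C e) := by
    rw [coe_mapAlgHom, map_C]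
    congr 1
    show expand k p (C e) = _
    rw [expand_C]
  rw [key, exF, map_add, ← aeval_algHom_apply, map_add, ← aeval_algHom_apply, map_mul, h1, h2, h3]
  rfl

theorem atZero_exF (P Q : k[X]) (e c : k) {n : ℕ} (hn : n ≠ 0) :
    atZero (exF P Q e c n) = C e * X + P.comp Q := by
  have key : atZero (exF P Q e c n) = mapAlgHom (aeval (0 : k)) (exF P Q e c n) := rfl
  have h1 : mapAlgHom (aeval (0 : k) : k[X] →ₐ[k] k) (X : k[X][X]) = X := by
    rw [coe_mapAlgHom, map_X]
  have h2 : mapAlgHom (aeval (0 : k) : k[X] →ₐ[k] k) (C (C c * X ^ n) : k[X][X]) = 0 := by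
    rw [coe_mapAlgHom, map_C]
    show C (aeval (0 : k) (C c * X ^ n)) = 0
    rw [map_mul, map_pow, aeval_X, zero_pow hn, mul_zero, C_0]
  have h3 : mapAlgHom (aeval (0 : k) : k[X] →ₐ[k] k) (C (C e) : k[X][X]) = C e := by
    rw [coe_mapAlgHom, map_C]
    show C (aeval (0 : k) (C e)) = _
    rw [aeval_C]
    rfl
  rw [key, exF, map_add, ← aeval_algHom_apply, map_add, ← aeval_algHom_apply, map_mul, h1, h2, h3,
    zero_add]
  congr 1
  rw [aeval_X_left_apply]
  rfl

theorem exF_mem1 (p : ℕ) (P Q : k[X]) {e c : k} (he : e ≠ 0) (hc : c ≠ 0) :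
    IsTowerCurve p (exF P Q e c 1) := by
  have h1 := IsTowerCurve.shear _ e P he (IsTowerCurve.line (k := k) (p := p))
  have h2 := IsTowerCurve.swap _ h1
  have h3 := IsTowerCurve.shear _ c Q hc h2
  have h4 := IsTowerCurve.swap _ h3
  have e1 : Bivariate.swap ((X : k[X][X]).comp (C (C e) * X + C P)) =
      C (C e) * C X + aeval (X : k[X][X]) P := by
    rw [X_comp, map_add, map_mul, Bivariate.swap_Y, Bivariate.swap_C_C, Bivariate.swap_C]
    rfl
  have e2 : Bivariate.swap ((C (C e) * C X + aeval (X : k[X][X]) P).comp (C (C c) * X + C Q)) =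
      exF P Q e c 1 := by
    have e3 : (aeval (X : k[X][X]) P).comp (C (C c) * X + C Q) =
        aeval (C (C c) * X + C Q : k[X][X]) P := by
      rw [aeval_X_left_eq_map]
      rw [comp, eval₂_map]
      rfl
    rw [add_comp, mul_comp, C_comp, C_comp, e3, map_add, map_mul, Bivariate.swap_X,
      Bivariate.swap_C_C, exF]
    congr 1
    rw [← AlgEquiv.coe_algHom, ← aeval_algHom_apply]
    congr 2
    rw [AlgEquiv.coe_algHom, map_add, map_mul, Bivariate.swap_C_C, Bivariate.swap_Y,
      Bivariate.swap_C, pow_one, C_mul]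
    rfl
  rw [e1, e2] at h4
  exact h4

/-- The polynomials `e x + P(c t ^ (p ^ d) + Q(x))`. -/
theorem exF_mem {p : ℕ} (hp : p.Prime) (P Q : k[X]) {e c : k} (he : e ≠ 0) (hc : c ≠ 0)
    (hirr : Irreducible (C e * X + P.comp Q)) (hsep : (C e * X + P.comp Q).Separable)
    (hcop : p.Coprime (C e * X + P.comp Q).natDegree) (d : ℕ) :
    IsTowerCurve p (exF P Q e c (p ^ d)) := by
  induction d with
  | zero => rw [pow_zero]; exact exF_mem1 p P Q he hc
  | succ d ih =>
    have e := atZero_exF P Q e c (n := p ^ d) (pow_ne_zero _ hp.ne_zero)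
    have h := IsTowerCurve.root _ (by rw [e]; exact hirr) (by rw [e]; exact hsep)
      (by rw [e]; exact hcop) ih
    rw [powT_exF, ← pow_succ] at h
    exact h

end Pool.Agent.Y160.T7
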