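import Pool.Agent.Y160.SL.Cls
import Pool.Agent.Y160.SL.Curve

/-!
# Project T7: statements
-/

set_option autoImplicit false
set_option linter.all false

open Polynomial

namespace Pool.Agent.Y160.T7

open Pool.Agent.Y160.SL (atZero powT IsTowerCurve Smooth)

/-- Smoothness. -/
def St_smooth : Prop := ∀ (p : ℕ) (k : Type) [Field k] (f : k[X][X]), p.Prime → (p : k) ≠ 0 →
  IsTowerCurve p f → Smooth f

/-- Absolute irreducibility. -/
def St_irr : Prop := ∀ (p : ℕ) (k E F : Type) [Field k] [Field E] [Algebra k E] [Field F]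
  [Algebra E[X] F] [IsFractionRing E[X] F] (f : k[X][X]), p.Prime → IsTowerCurve p f → f.Monic →
  Irreducible ((f.map (mapRingHom (algebraMap k E))).map (algebraMap E[X] F))

end Pool.Agent.Y160.T7
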