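import Pool.Agent.Y160.T7.Ring
import Pool.Agent.Y160.T7.Stm
import Pool.Agent.Y160.SL.Fam
import Pool.Agent.Y160.SL.Conv
import Pool.Agent.Y160.HI.Fin

/-!
# The conclusions for the curves of the class
-/

set_option autoImplicit false
set_option linter.all false

open Polynomial IsDedekindDomain WithZero
open scoped Classical

namespace Pool.Agent.Y160.T7

open Pool.Agent.TH115.GD (IsTower)
open Pool.Agent.Y160.FT
open Pool.Agent.Y160.SE (IsPw SmoothC)
open Pool.Agent.Y160.SL (atZero powT IsTowerCurve IsBasisAt Concl)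
open Pool.Agent.Y160.RK (ptCl spanD gen_iter)

/-- From `p`-th powers to `p ^ j`-th powers. -/
theorem propT_pow {p : ℕ} {k R : Type} [Field k] [CommRing R] [IsDedekindDomain R] [Algebra k R]
    (hp : p ≠ 0) (h : PropT p k R) (L : Type) [Field L] [Algebra R L] [IsFractionRing R L] :
    ∀ (j : ℕ) (z : L), z ≠ 0 → (∀ P : HeightOneSpectrum R, IsPw (p ^ j) (P.valuation L z)) →
      ∃ (c : k) (w : L), c ≠ 0 ∧ w ≠ 0 ∧ z = algebraMap R L (algebraMap k R c) * w ^ (p ^ j) := by
  intro j
  induction j with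
  | zero =>
    intro z hz _
    exact ⟨1, z, one_ne_zero, hz, by rw [map_one, map_one, one_mul, pow_zero, pow_one]⟩
  | succ j ih =>
    intro z hz hP
    obtain ⟨c, w, hc, hw, e⟩ := h L z hz (fun P => by
      obtain ⟨δ, hδ⟩ := hP P
      exact ⟨δ ^ p ^ j, by rw [hδ, ← pow_mul, ← pow_succ]⟩)
    obtain ⟨c', w', hc', hw', e'⟩ := ih w hw (fun P => by
      obtain ⟨δ, hδ⟩ := hP P
      refine ⟨δ, pw_inj hp ?_⟩
      rw [← pow_mul, ← pow_succ, ← hδ, e, map_mul, map_pow, val_const P hc, one_mul])
    refine ⟨c * c' ^ p, w', mul_ne_zero hc (pow_ne_zero _ hc'), hw', ?_⟩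
    rw [e, e', mul_pow, ← pow_mul, ← pow_succ, map_mul, map_mul, map_pow, map_pow, mul_assoc]

section cont

variable {k K : Type} [Field k] [Field K] [Algebra k[X] K] [IsFractionRing k[X] K]

/-- The function field of the curve, and the functions whose divisor is divisible by `q`. -/
theorem cont {Goal : Prop} {p q s : ℕ} (hp : p.Prime) (hq : q = p ^ (s + 1)) {f : k[X][X]}
    (hmon : f.Monic) (hcop : p.Coprime f.natDegree)
    (hR : ∃ (R : Type) (_ : CommRing R) (_ : IsDedekindDomain R) (_ : Algebra k R) (t x : R),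
      Pres t x f ∧ PropT p k R)
    (cont : ∀ (R N : Type) [CommRing R] [IsDedekindDomain R] [Field N] [Algebra K N]
      [Algebra k[X] N] [IsScalarTower k[X] K N] [Algebra R N] [IsFractionRing R N]
      [Algebra k[X] R] [IsScalarTower k[X] R N] [Algebra.IsIntegral k[X] R] (θ : N),
      aeval θ (f.map (algebraMap k[X] K)) = 0 → IntermediateField.adjoin K {θ} = ⊤ →
      (∀ z : N, z ≠ 0 → (∀ v : HeightOneSpectrum R, IsPw q (v.valuation N z)) →
        ∃ (u : k) (g0 : N), u ≠ 0 ∧ g0 ≠ 0 ∧ z = algebraMap k[X] N (C u) * g0 ^ q) → Goal) :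
    Goal := by
  obtain ⟨R, _, _, _, u, x, hP, hsel⟩ := hR
  have hsurj := hP.surj
  have hker := hP.ker
  have hn : f.natDegree ≠ 0 := by
    intro h0
    rw [h0, Nat.coprime_zero_right] at hcop
    exact hp.one_lt.ne' hcop
  -- the algebra structures
  let φ : k[X] →+* R := ((aeval u : k[X] →ₐ[k] R) : k[X] →+* R)
  letI : Algebra k[X] R := φ.toAlgebra
  haveI : IsDomain R := inferInstance
  have hinjR : Function.Injective (algebraMap k[X] R) := by
    rw [injective_iff_map_eq_zero]
    intro y hy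
    have h1 : eval₂ φ x (C y) = 0 := by rw [eval₂_C]; exact hy
    have h2 := (hker _).1 h1
    by_contra hy0
    have h3 := natDegree_le_of_dvd h2 (C_ne_zero.2 hy0)
    rw [natDegree_C] at h3
    exact hn (Nat.le_zero.1 h3)
  have hkX : ∀ y : k[X], algebraMap k[X] (FractionRing R) y = algebraMap R (FractionRing R) (φ y) :=
    fun y => IsScalarTower.algebraMap_apply k[X] R (FractionRing R) y
  have hinjN : Function.Injective (algebraMap k[X] (FractionRing R)) := by
    intro y y' h
    rw [hkX, hkX] at h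
    exact hinjR (IsFractionRing.injective R (FractionRing R) h)
  letI : Algebra K (FractionRing R) := (IsFractionRing.lift hinjN : K →+* FractionRing R).toAlgebra
  haveI : IsScalarTower k[X] K (FractionRing R) := IsScalarTower.of_algebraMap_eq fun y =>
    (IsFractionRing.lift_algebraMap hinjN y).symm
  have hroot : eval₂ φ x f = 0 := (hker _).2 dvd_rfl
  haveI : Algebra.IsIntegral k[X] R := by
    refine ⟨fun z => ?_⟩
    obtain ⟨P, rfl⟩ := hsurj z
    have hx : IsIntegral k[X] x := ⟨f, hmon, hroot⟩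
    have : eval₂ φ x P = aeval x P := rfl
    rw [this]
    exact adjoin_le_integralClosure hx (aeval_mem_adjoin_singleton k[X] x)
  let θ : FractionRing R := algebraMap R (FractionRing R) x
  have hθev : ∀ P : k[X][X], aeval θ (P.map (algebraMap k[X] K)) =
      algebraMap R (FractionRing R) (eval₂ φ x P) := by
    intro P
    rw [aeval_map_algebraMap]
    have h1 : algebraMap k[X] (FractionRing R) = (algebraMap R (FractionRing R)).comp φ :=
      RingHom.ext hkX
    rw [aeval_def, h1]
    exact (hom_eval₂ P φ (algebraMap R (FractionRing R)) x).symm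
  have hθ : aeval θ (f.map (algebraMap k[X] K)) = 0 := by
    rw [hθev, hroot, map_zero]
  have htop : IntermediateField.adjoin K {θ} = ⊤ := by
    rw [eq_top_iff]
    rintro z -
    have hR : ∀ r : R, algebraMap R (FractionRing R) r ∈ IntermediateField.adjoin K {θ} := by
      intro r
      obtain ⟨P, rfl⟩ := hsurj r
      rw [← hθev]
      exact IntermediateField.algebra_adjoin_le_adjoin K {θ}
        (aeval_mem_adjoin_singleton K θ)
    obtain ⟨a, b, hb, rfl⟩ := IsFractionRing.div_surjective (A := R) z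
    exact div_mem (hR a) (hR b)
  refine cont R (FractionRing R) θ hθ htop ?_
  intro z hz hv
  obtain ⟨c, w, hc, hw, e⟩ := propT_pow hp.ne_zero hsel (FractionRing R) (s + 1) z hz
    (by rw [← hq]; exact hv)
  refine ⟨c, w, hc, hw, ?_⟩
  rw [e, hkX, hq]
  congr 2
  show _ = aeval u (C c)
  rw [aeval_C]

end cont

section concl

variable {k k' K F : Type} [Field k] [Field k'] [Algebra k k'] [Field K] [Algebra k[X] K]
  [Field F] [Algebra k'[X] F] [IsFractionRing k'[X] F] [Algebra K F] [IsFractionRing k[X] K]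

/-- All the conclusions. -/
theorem concl (hT : IsTower k k' K F) {p q s : ℕ} (hp : p.Prime) (hq : q = p ^ (s + 1)) {ζ : k}
    (hζ : IsPrimitiveRoot ζ q) {f : k[X][X]} (hmon : f.Monic) (hcop : p.Coprime f.natDegree)
    (hR : ∃ (R : Type) (_ : CommRing R) (_ : IsDedekindDomain R) (_ : Algebra k R) (t x : R),
      Pres t x f ∧ PropT p k R)
    (hsep : (f.map (algebraMap k[X] K)).Separable) (hsm : SmoothC f)
    (hirr : Irreducible ((f.map (algebraMap k[X] K)).map (algebraMap K F))) :
    Concl p q 0 k k' F (f.map (algebraMap k[X] K)) := by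
  have hirrK : Irreducible (f.map (algebraMap k[X] K)) :=
    Polynomial.Monic.irreducible_of_irreducible_map (algebraMap K F) _ (hmon.map _) hirr
  have hg := (SH.good_of hp (Nat.succ_pos s) hq hT hζ hmon hcop hsep).1
  refine ⟨SL.tateAt_of ?_, SL.shaTriv_of ?_, ?_⟩
  · refine cont (K := K) hp hq hmon hcop hR ?_
    intro R N _ _ _ _ _ _ _ _ _ _ _ θ hθ htop hpts
    refine SQ.mainC (R := R) (N := N) hp (Nat.succ_pos s) hq SQ.hyps SQ.lhyps hT hζ hmon hcop
      hsep hsm hirr hθ htop ?_
    intro z hz hv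
    obtain ⟨c, w, hc, hw, e⟩ := hpts z hz hv
    exact ⟨c, w, 0, hc, hw, fun b hb => absurd hb (Multiset.notMem_zero b), by
      rw [e, Multiset.prod_zero, map_one, mul_one]⟩
  · refine cont (K := K) hp hq hmon hcop hR ?_
    intro R N _ _ _ _ _ _ _ _ _ _ _ θ hθ htop hpts
    refine SH.mainSha (R := R) (N := N) hp (Nat.succ_pos s) hq SQ.hyps SQ.lhyps
      Pool.Agent.Y141.SH.stShaLoc hT hζ hmon hcop hsep hsm hirrK hθ htop ?_
    intro z hz hv
    obtain ⟨c, w, hc, hw, e⟩ := hpts z hz hv
    exact ⟨c, w, 0, hc, hw, fun b hb => absurd hb (Multiset.notMem_zero b), by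
      rw [e, Multiset.prod_zero, map_one, mul_one]⟩
  · refine ⟨fun i => i.1.elim0, ?_, ?_⟩
    · haveI : IsEmpty (Fin 0 × Fin (q - 1)) := ⟨fun i => i.1.elim0⟩
      exact linearIndependent_empty_type
    · refine cont (K := K) hp hq hmon hcop hR ?_
      intro R N _ _ _ _ _ _ _ _ _ _ _ θ hθ htop hpts n x
      have hgen : ∀ x : SQ.Jac q (f.map (algebraMap k[X] K)) K,
          ∃ y : SQ.Jac q (f.map (algebraMap k[X] K)) K, x - SQ.pe hg K (1 - X) y ∈
            spanD hg (fun i : Fin 0 => (i.elim0 : SQ.Jac q (f.map (algebraMap k[X] K)) K)) := by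
        intro x
        obtain ⟨T, y, hTP, hx⟩ := SH.mainGen (R := R) (N := N) hp (Nat.succ_pos s) hq SQ.hyps
          SQ.lhyps FT.inj_all Pool.Agent.Y141.SH.stShaLoc hT hζ hg hmon hcop hsep hsm hirrK hθ htop
          ∅ (fun P hP => absurd hP (Set.notMem_empty P)) (by
            intro z hz hv
            obtain ⟨c, w, hc, hw, e⟩ := hpts z hz hv
            refine ⟨c, w, 0, hc, hw, fun b hb => absurd hb (Multiset.notMem_zero b), ?_⟩
            rw [e, SQ.dvP_eval, Multiset.map_zero, Multiset.prod_zero, mul_one]) x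
        refine ⟨y, ?_⟩
        have hT0 : T = 0 := Multiset.eq_zero_of_forall_notMem fun P hP =>
          Set.notMem_empty P (hTP P hP)
        rw [hx, add_sub_cancel_right, hT0, Multiset.map_zero, Multiset.sum_zero]
        exact AddSubgroup.zero_mem _
      obtain ⟨y, hy⟩ := gen_iter SQ.hyps hg hp hq _ hgen n x
      refine ⟨y, ?_⟩
      refine AddSubgroup.closure_mono ?_ hy
      rintro _ ⟨i, rfl⟩
      exact i.1.elim0

/-- The theorem, up to smoothness and absolute irreducibility. -/
theorem main (hS : St_smooth) (hI : St_irr) (hT : IsTower k k' K F) {p s : ℕ} (hp : p.Prime)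
    {ζ : k} (hζ : IsPrimitiveRoot ζ (p ^ (s + 1))) {f : k[X][X]} (hf : IsTowerCurve p f)
    (hmon : f.Monic) (hcop : p.Coprime f.natDegree)
    (hsep : (f.map (algebraMap k[X] K)).Separable) :
    Concl p (p ^ (s + 1)) 0 k k' F (f.map (algebraMap k[X] K)) := by
  have hζ' : IsPrimitiveRoot (ζ ^ (p ^ s)) p :=
    hζ.pow (pow_pos hp.pos _) (by rw [pow_succ])
  refine concl hT hp rfl hζ hmon hcop (tower_prop hp hζ' hf) hsep
    (hS p k f hp (p_ne hp rfl hζ) hf) ?_
  have e : (f.map (algebraMap k[X] K)).map (algebraMap K F) =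
      (f.map (mapRingHom (algebraMap k k'))).map (algebraMap k'[X] F) := by
    rw [Polynomial.map_map, Polynomial.map_map]
    congr 1
    apply RingHom.ext
    intro y
    exact hT.map y
  rw [e]
  exact hI p k k' F f hp hf hmon

end concl

end Pool.Agent.Y160.T7
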