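import Pool.Agent.Y160.FT2.All
import Pool.Agent.Y160.SL.Cls

/-!
# The coordinate rings: the four operations
-/

set_option autoImplicit false
set_option linter.all false

open Polynomial IsDedekindDomain

namespace Pool.Agent.Y160.T7

open Pool.Agent.Y160.FT (Pres eval_swap)
open Pool.Agent.Y160.SL (atZero powT IsTowerCurve)

section pres

variable {k R : Type} [Field k] [CommRing R] [Algebra k R] {t x : R} {f : k[X][X]}

theorem pres_unit (h : Pres t x f) {c : k} (hc : c ≠ 0) : Pres t x (C (C c) * f) := by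
  have hu : IsUnit (C (C c) : k[X][X]) := (isUnit_C.2 (isUnit_C.2 (IsUnit.mk0 _ hc)))
  exact ⟨h.surj, fun p => (h.ker p).trans (hu.mul_left_dvd).symm⟩

theorem pres_swap' (h : Pres t x f) : Pres x t (Bivariate.swap f) := by
  constructor
  · intro z
    obtain ⟨p, hp⟩ := h.surj z
    exact ⟨Bivariate.swap p, by rw [eval_swap, Bivariate.swap_swap_apply, hp]⟩
  · intro p
    rw [eval_swap, h.ker]
    constructor
    · rintro ⟨r, hr⟩
      refine ⟨Bivariate.swap r, ?_⟩
      rw [← map_mul, ← hr, Bivariate.swap_swap_apply]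
    · rintro ⟨r, hr⟩
      refine ⟨Bivariate.swap r, ?_⟩
      rw [hr, map_mul, Bivariate.swap_swap_apply]

/-- The inverse change of coordinates. -/
theorem comp_inv {c : k} (hc : c ≠ 0) (b : k[X]) :
    (C (C c) * X + C b : k[X][X]).comp (C (C c⁻¹) * (X - C b)) = X ∧
    (C (C c⁻¹) * (X - C b) : k[X][X]).comp (C (C c) * X + C b) = X := by
  have e1 : (C (C c) : k[X][X]) * C (C c⁻¹) = 1 := by
    rw [← C_mul, ← C_mul, mul_inv_cancel₀ hc, C_1, C_1]
  constructor
  · rw [add_comp, mul_comp, C_comp, X_comp, C_comp, ← mul_assoc, e1, one_mul, sub_add_cancel]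
  · rw [mul_comp, C_comp, sub_comp, X_comp, C_comp, add_sub_cancel_right, ← mul_assoc,
      mul_comm (C (C c⁻¹)), e1, one_mul]

theorem pres_shear (h : Pres t x f) {c : k} (hc : c ≠ 0) (b : k[X]) :
    Pres t (eval₂ ((aeval t : k[X] →ₐ[k] R) : k[X] →+* R) x (C (C c⁻¹) * (X - C b)))
      (f.comp (C (C c) * X + C b)) := by
  obtain ⟨h1, h2⟩ := comp_inv hc b
  have key : ∀ P : k[X][X], eval₂ ((aeval t : k[X] →ₐ[k] R) : k[X] →+* R)
      (eval₂ ((aeval t : k[X] →ₐ[k] R) : k[X] →+* R) x (C (C c⁻¹) * (X - C b))) P =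
      eval₂ ((aeval t : k[X] →ₐ[k] R) : k[X] →+* R) x (P.comp (C (C c⁻¹) * (X - C b))) :=
    fun P => (eval₂_comp _).symm
  constructor
  · intro z
    obtain ⟨p, hp⟩ := h.surj z
    refine ⟨p.comp (C (C c) * X + C b), ?_⟩
    rw [key, comp_assoc, h1, comp_X, hp]
  · intro p
    rw [key, h.ker]
    constructor
    · rintro ⟨r, hr⟩
      refine ⟨r.comp (C (C c) * X + C b), ?_⟩
      rw [← mul_comp, ← hr, comp_assoc, h2, comp_X]
    · rintro ⟨r, hr⟩
      refine ⟨r.comp (C (C c⁻¹) * (X - C b)), ?_⟩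
      rw [hr, mul_comp, comp_assoc, h1, comp_X]

theorem swap_powT (p : ℕ) (f : k[X][X]) :
    Bivariate.swap ((Bivariate.swap f).comp (C 0 + C (C 1) * X ^ p)) = powT p f := by
  have key : ((Bivariate.swap (R := k) : k[X][X] →+* k[X][X]).comp
      ((compRingHom (C 0 + C (C 1) * X ^ p : k[X][X])).comp
        (Bivariate.swap (R := k) : k[X][X] →+* k[X][X]))) =
      mapRingHom (expand k p : k[X] →+* k[X]) := by
    apply Polynomial.ringHom_ext'
    · apply Polynomial.ringHom_ext
      · intro a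
        show Bivariate.swap ((Bivariate.swap (C (C a))).comp _) = map _ (C (C a))
        rw [Bivariate.swap_C_C, C_comp, Bivariate.swap_C_C, map_C]
        congr 1
        show C a = expand k p (C a)
        rw [expand_C]
      · show Bivariate.swap ((Bivariate.swap (C X)).comp _) = map _ (C X)
        rw [Bivariate.swap_X, X_comp, C_0, zero_add, C_1, C_1, one_mul, map_pow, Bivariate.swap_Y,
          map_C]
        show _ = C (expand k p X)
        rw [expand_X, C_pow]
    · show Bivariate.swap ((Bivariate.swap X).comp _) = map _ X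
      rw [Bivariate.swap_Y, C_comp, Bivariate.swap_X, map_X]
  exact congrArg (fun g : k[X][X] →+* k[X][X] => g f) key

theorem pres_root {p : ℕ} (hp : 0 < p) (h : Pres t x f) :
    Pres (AdjoinRoot.root (X ^ p - C t : R[X]))
      (algebraMap R (AdjoinRoot (X ^ p - C t : R[X])) x) (powT p f) := by
  have h1 := Pool.Agent.Y46.FT.stPres k R x t t (Bivariate.swap f) p 1 0 hp one_ne_zero
    (by rw [map_zero, map_one, zero_add, one_mul]) (pres_swap' h)
  have h2 := pres_swap' h1
  rw [swap_powT] at h2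
  exact h2

theorem swap_eval_zero (f : k[X][X]) : (Bivariate.swap f).eval 0 = atZero f := by
  have key : (evalRingHom (0 : k[X])).comp (Bivariate.swap (R := k) : k[X][X] →+* k[X][X]) =
      mapRingHom (evalRingHom (0 : k)) := by
    apply Polynomial.ringHom_ext'
    · apply Polynomial.ringHom_ext
      · intro a
        show eval 0 (Bivariate.swap (C (C a))) = map _ (C (C a))
        rw [Bivariate.swap_C_C, eval_C, map_C]
        congr 1
        show a = eval 0 (C a)
        rw [eval_C]
      · show eval 0 (Bivariate.swap (C X)) = map _ (C X)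
        rw [Bivariate.swap_X, eval_X, map_C]
        show _ = C (eval 0 X)
        rw [eval_X, C_0]
    · show eval 0 (Bivariate.swap X) = map _ X
      rw [Bivariate.swap_Y, eval_C, map_X]
  exact congrArg (fun g : k[X][X] →+* k[X] => g f) key

/-- The residue ring at `t = 0`. -/
theorem res_zero (h : Pres t x f) : (∀ p : k[X], t ∣ aeval x p ↔ atZero f ∣ p) ∧
    ∀ z : R, ∃ p : k[X], t ∣ z - aeval x p := by
  obtain ⟨h1, h2⟩ := Pool.Agent.Y46.FT.stRes k R x t (Bivariate.swap f) (pres_swap' h) 0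
  rw [map_zero, sub_zero] at h1 h2
  rw [swap_eval_zero] at h1
  exact ⟨h1, h2⟩

/-- `t` is not zero. -/
theorem t_ne_zero (h : Pres t x f) (hn : 0 < (atZero f).natDegree) (h0 : atZero f ≠ 0) : t ≠ 0 := by
  intro ht
  have h1 : f ∣ C X := (h.ker (C X)).1 (by
    rw [eval₂_C]
    show aeval t X = 0
    rw [aeval_X, ht])
  obtain ⟨g, hg⟩ := h1
  have hCX : (C X : k[X][X]) ≠ 0 := C_ne_zero.2 X_ne_zero
  have hf0 : f ≠ 0 := fun h2 => hCX (by rw [hg, h2, zero_mul])
  have hg0 : g ≠ 0 := fun h2 => hCX (by rw [hg, h2, mul_zero])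
  have h3 := congrArg natDegree hg
  rw [natDegree_C, natDegree_mul hf0 hg0] at h3
  have h4 : (atZero f).natDegree ≤ f.natDegree := natDegree_map_le
  omega

end pres

end Pool.Agent.Y160.T7
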