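import Pool.Agent.Y160.T7.Pres

/-!
# The functions on the curves
-/

set_option autoImplicit false
set_option linter.all false

open Polynomial IsDedekindDomain WithZero

namespace Pool.Agent.Y160.T7

open Pool.Agent.Y160.FT
open Pool.Agent.Y228.FT
open Pool.Agent.Y160.SE (IsPw)
open Pool.Agent.Y160.SL (atZero powT IsTowerCurve)

/-- The functions whose valuations are `p`-th powers are constants times `p`-th powers. -/
def PropT (p : ℕ) (k R : Type) [Field k] [CommRing R] [IsDedekindDomain R] [Algebra k R] : Prop :=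
  ∀ (L : Type) [Field L] [Algebra R L] [IsFractionRing R L] (z : L), z ≠ 0 →
    (∀ P : HeightOneSpectrum R, IsPw p (P.valuation L z)) →
      ∃ (c : k) (w : L), c ≠ 0 ∧ w ≠ 0 ∧ z = algebraMap R L (algebraMap k R c) * w ^ p

section step

variable {k R : Type} [Field k] [CommRing R] [IsDedekindDomain R] [Algebra k R] {t x : R}
  {f : k[X][X]} {p : ℕ}

theorem PropT.propR (h : PropT p k R) (x : R) : PropR p (1 : k[X]) x := by
  intro L _ _ _ _ hk z hz hP
  obtain ⟨c, w, hc, hw, e⟩ := h L z hz hP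
  exact ⟨c, 1, w, hc, VV.one 1, hw, by rw [e, hk, map_one, map_one, mul_one]⟩

/-- `t` is a prime element. -/
theorem t_prime (h : Pres t x f) (hirr : Irreducible (atZero f)) : Prime t := by
  obtain ⟨hd, hs⟩ := res_zero h
  refine ⟨t_ne_zero h hirr.natDegree_pos hirr.ne_zero, ?_, ?_⟩
  · intro hu
    have h1 : t ∣ aeval x (1 : k[X]) := by rw [map_one]; exact hu.dvd
    exact hirr.not_isUnit (isUnit_of_dvd_one ((hd 1).1 h1))
  · intro y z hyz
    obtain ⟨a, ha⟩ := hs y
    obtain ⟨b, hb⟩ := hs z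
    have h1 : t ∣ aeval x (a * b) := by
      have e : aeval x (a * b) = y * z - (y - aeval x a) * z - aeval x a * (z - aeval x b) := by
        rw [map_mul]; ring
      rw [e]
      exact dvd_sub (dvd_sub hyz (ha.mul_right z)) (hb.mul_left _)
    rcases hirr.prime.dvd_or_dvd ((hd _).1 h1) with h2 | h2
    · left
      have := dvd_add ha ((hd a).2 h2)
      rwa [sub_add_cancel] at this
    · right
      have := dvd_add hb ((hd b).2 h2)
      rwa [sub_add_cancel] at this

theorem root_step (hp : p.Prime) {ζ : k} (hζ : IsPrimitiveRoot ζ p) (h : Pres t x f)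
    (hR : PropT p k R) (hirr : Irreducible (atZero f)) (hcop : p.Coprime (atZero f).natDegree) :
    ∃ (R' : Type) (_ : CommRing R') (_ : IsDedekindDomain R') (_ : Algebra k R') (t' x' : R'),
      Pres t' x' (powT p f) ∧ PropT p k R' := by
  obtain ⟨hd, hs⟩ := res_zero h
  have hπ := t_prime h hirr
  obtain ⟨hD, hK⟩ := Pool.Agent.Y494.FT.stKum p k R ζ t hp.one_lt hζ (val_cases hπ)
    ⟨vpr hπ, vpr_self hπ⟩
  letI := hD
  refine ⟨AdjoinRoot (X ^ p - C t : R[X]), inferInstance, hD, inferInstance, _, _,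
    pres_root hp.pos h, ?_⟩
  intro L _ _ _ z hz hzP
  letI : Algebra k L := ((algebraMap (AdjoinRoot (X ^ p - C t : R[X])) L).comp
    (algebraMap k (AdjoinRoot (X ^ p - C t : R[X])))).toAlgebra
  have hcL : ∀ c : k, algebraMap k L c = algebraMap (AdjoinRoot (X ^ p - C t : R[X])) L
    (AdjoinRoot.of _ (algebraMap k R c)) := fun c => rfl
  obtain ⟨σ, hKx⟩ := hK L hcL
  have hinjL : ∀ a : R, a ≠ 0 → algebraMap (AdjoinRoot (X ^ p - C t : R[X])) L
      (algebraMap R (AdjoinRoot (X ^ p - C t : R[X])) a) ≠ 0 := fun a ha h => by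
    apply ha
    apply hKx.inj
    rw [map_zero]
    exact (IsFractionRing.injective (AdjoinRoot (X ^ p - C t : R[X])) L) (by rw [h, map_zero])
  have hv0 : (vpr hπ).intValuation t ≠ 1 := by rw [vpr_self]; exact exp_neg_one_ne_one
  have hpi : ∀ j : ℕ, algebraMap (AdjoinRoot (X ^ p - C t : R[X])) L
      (algebraMap R (AdjoinRoot (X ^ p - C t : R[X])) (t ^ j)) =
      (algebraMap _ L (AdjoinRoot.root (X ^ p - C t : R[X])) ^ j) ^ p := by
    intro j
    have h1 : AdjoinRoot.root (X ^ p - C t : R[X]) ^ p =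
      algebraMap R (AdjoinRoot (X ^ p - C t : R[X])) t := hKx.pw
    rw [map_pow, map_pow, ← h1, map_pow, ← pow_mul, ← pow_mul, mul_comm]
  have hroot0 : algebraMap _ L (AdjoinRoot.root (X ^ p - C t : R[X])) ≠ 0 := by
    intro h0
    have h1 := hpi 1
    rw [h0, pow_one, pow_one, zero_pow hp.ne_zero] at h1
    exact hinjL t hπ.ne_zero h1
  refine Exists.elim (Pool.Agent.Y317.FT.stTS p 0 p k R (AdjoinRoot (X ^ p - C t : R[X])) L ζ t _ σ
    {d : R | ∃ j : ℕ, d = t ^ j} hp
    (by rw [zero_add, pow_one]) hζ hKx (val_cases hπ)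
    ⟨⟨0, (pow_zero t).symm⟩, ?_, ?_⟩ ?_ ?_ ?_ z hz hzP) ?_
  · rintro ⟨j, hj⟩
    exact pow_ne_zero j hπ.ne_zero hj.symm
  · rintro a ⟨i, rfl⟩ b ⟨j, rfl⟩
    exact ⟨i + j, (pow_add t i j).symm⟩
  · intro a b ha hb hab
    obtain ⟨c, d, w, w', hc, ⟨hd0, A, j, ⟨N, hA⟩, rfl⟩, hw, hw', e⟩ :=
      stepA hp hπ (hR.propR x) a b ha hb hab
    rw [one_pow] at hA
    obtain ⟨c1, hc1, rfl⟩ := Polynomial.isUnit_iff.1 (isUnit_of_dvd_one hA)
    refine ⟨c * c1, t ^ j, w, w', mul_ne_zero hc hc1.ne_zero, ⟨j, rfl⟩, hw, hw', ?_⟩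
    rw [e, aeval_C, map_mul]
    ring
  · rintro c d hc0 ⟨j, rfl⟩ -
    exact ⟨1, _, one_ne_zero, pow_ne_zero j hroot0, by rw [map_one, one_mul]; exact hpi j⟩
  · refine ⟨vpr hπ, hv0, fun c w hcw => ?_⟩
    have h5 := (vpr_lt_one hπ _).1 hcw
    obtain ⟨a, ha⟩ := hs w
    have h6 : t ∣ w ^ p - (aeval x a) ^ p := ha.trans (sub_dvd_pow_sub_pow _ _ _)
    have h7 : t ∣ aeval x (C c - a ^ p) := by
      have e1 : aeval x (C c - a ^ p) = (algebraMap k R c - w ^ p) + (w ^ p - (aeval x a) ^ p) := by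
        rw [map_sub, map_pow, aeval_C]; ring
      rw [e1]
      exact dvd_add h5 h6
    exact norm_pw hp.pos hirr hcop ((hd _).1 h7)
  · rintro c ⟨d, w, hc0, ⟨j, rfl⟩, hw, hzz⟩
    refine ⟨c, (algebraMap _ L (AdjoinRoot.root (X ^ p - C t : R[X])) ^ j) * w, hc0,
      mul_ne_zero (pow_ne_zero _ hroot0) hw, ?_⟩
    rw [hzz, hpi, mul_pow, mul_assoc]
    rfl

end step

section line

variable {k : Type} [Field k]

theorem pres_line : Pres (X : k[X]) (0 : k[X]) (X : k[X][X]) := by
  have h1 : ∀ P : k[X][X], eval₂ ((aeval (X : k[X]) : k[X] →ₐ[k] k[X]) : k[X] →+* k[X]) 0 P =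
      P.coeff 0 := by
    intro P
    rw [eval₂_at_zero]
    show aeval (X : k[X]) (P.coeff 0) = _
    exact aeval_X_left_apply _
  constructor
  · intro z
    exact ⟨C z, by rw [h1, coeff_C_zero]⟩
  · intro P
    rw [h1, X_dvd_iff]

theorem propT_line {p : ℕ} (hp : p.Prime) : PropT p k k[X] := by
  intro L _ _ _ z hz hP
  have hinj := IsFractionRing.injective k[X] L
  obtain ⟨a, b, hb, rfl⟩ := IsFractionRing.div_surjective (A := k[X]) z
  have hb0 : b ≠ 0 := nonZeroDivisors.ne_zero hb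
  have ha0 : a ≠ 0 := by
    rintro rfl
    rw [map_zero, zero_div] at hz
    exact hz rfl
  have hbL : algebraMap k[X] L b ≠ 0 := fun h => hb0 (hinj (by rw [h, map_zero]))
  have hP0 : a * b ^ (p - 1) ≠ 0 := mul_ne_zero ha0 (pow_ne_zero _ hb0)
  obtain ⟨c, d, w, hc, ⟨N, hd⟩, hw, hd0, e⟩ := factor hp.pos (1 : k[X]) _ (a * b ^ (p - 1)) hP0 le_rfl
    (fun v _ => by
      have h := hP v
      rw [map_div₀, HeightOneSpectrum.valuation_of_algebraMap,
        HeightOneSpectrum.valuation_of_algebraMap] at h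
      have hvb := val_ne_zero v hb0
      have e : v.intValuation (a * b ^ (p - 1)) =
          (v.intValuation a / v.intValuation b) * (v.intValuation b) ^ p := by
        rw [map_mul, map_pow]
        have : (v.intValuation b) ^ p = v.intValuation b * (v.intValuation b) ^ (p - 1) := by
          rw [← pow_succ']
          congr 1
          have := hp.pos
          omega
        rw [this, ← mul_assoc, div_mul_cancel₀ _ hvb]
      rw [e]
      exact h.mul (IsPw.self _))
  rw [one_pow] at hd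
  obtain ⟨c1, hc1, rfl⟩ := Polynomial.isUnit_iff.1 (isUnit_of_dvd_one hd)
  have hwL : algebraMap k[X] L w ≠ 0 := fun h => hw (hinj (by rw [h, map_zero]))
  refine ⟨c * c1, algebraMap k[X] L w / algebraMap k[X] L b, mul_ne_zero hc hc1.ne_zero,
    div_ne_zero hwL hbL, ?_⟩
  have e2 : algebraMap k[X] L a * algebraMap k[X] L b ^ (p - 1) =
      algebraMap k[X] L (algebraMap k k[X] (c * c1)) * algebraMap k[X] L w ^ p := by
    rw [← map_pow, ← map_mul, e, ← C_mul, map_mul, map_pow]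
    rfl
  have e3 : algebraMap k[X] L b ^ p = algebraMap k[X] L b ^ (p - 1) * algebraMap k[X] L b := by
    rw [← pow_succ]
    congr 1
    have := hp.pos
    omega
  rw [div_pow, ← mul_div_assoc, ← e2, e3, div_eq_div_iff hbL (mul_ne_zero (pow_ne_zero _ hbL) hbL)]
  ring

end line

/-- All curves of the class. -/
theorem tower_prop {p : ℕ} {k : Type} [Field k] (hp : p.Prime) {ζ : k} (hζ : IsPrimitiveRoot ζ p)
    {f : k[X][X]} (hf : IsTowerCurve p f) :
    ∃ (R : Type) (_ : CommRing R) (_ : IsDedekindDomain R) (_ : Algebra k R) (t x : R),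
      Pres t x f ∧ PropT p k R := by
  induction hf with
  | line => exact ⟨k[X], inferInstance, inferInstance, inferInstance, X, 0, pres_line, propT_line hp⟩
  | unit f c hc _ ih =>
    obtain ⟨R, i1, i2, i3, t, x, h, hR⟩ := ih
    exact ⟨R, i1, i2, i3, t, x, pres_unit h hc, hR⟩
  | swap f _ ih =>
    obtain ⟨R, i1, i2, i3, t, x, h, hR⟩ := ih
    exact ⟨R, i1, i2, i3, x, t, pres_swap' h, hR⟩
  | shear f c b hc _ ih =>
    obtain ⟨R, i1, i2, i3, t, x, h, hR⟩ := ih
    exact ⟨R, i1, i2, i3, t, _, pres_shear h hc b, hR⟩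
  | root f h1 _ h3 _ ih =>
    obtain ⟨R, i1, i2, i3, t, x, h, hR⟩ := ih
    exact root_step hp hζ h hR h1 h3

end Pool.Agent.Y160.T7
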